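import Mathlib

set_option autoImplicit false

open Polynomial Finset

namespace H28.Cusp

/-- `Ψ_{N,p} = ∑_{j<p} X^{j N/p}`. -/
noncomputable def psi (N p : ℕ) : ℂ[X] := ∑ j ∈ range p, (X : ℂ[X]) ^ (j * (N / p))

/-- Action of a polynomial on sequences by shifts. -/
noncomputable def act (f : ℂ[X]) (G : ℕ → ℂ) (b : ℕ) : ℂ := f.sum fun k a => a * G (b + k)

lemma act_add (f g : ℂ[X]) (G : ℕ → ℂ) (b : ℕ) : act (f + g) G b = act f G b + act g G b := by
  unfold act
  exact Polynomial.sum_add_index f g _ (by simp) (by intro a x y; ring)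

lemma act_monomial (k : ℕ) (a : ℂ) (G : ℕ → ℂ) (b : ℕ) :
    act (monomial k a) G b = a * G (b + k) := by
  unfold act
  rw [Polynomial.sum_monomial_index]
  simp

lemma act_zero (G : ℕ → ℂ) (b : ℕ) : act 0 G b = 0 := by
  unfold act; simp

lemma act_sum {ι : Type*} (s : Finset ι) (f : ι → ℂ[X]) (G : ℕ → ℂ) (b : ℕ) :
    act (∑ i ∈ s, f i) G b = ∑ i ∈ s, act (f i) G b := by
  classical
  induction s using Finset.induction_on with
  | empty => simp [act_zero]
  | insert a s ha ih => rw [Finset.sum_insert ha, Finset.sum_insert ha, act_add, ih]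

lemma act_mul (f g : ℂ[X]) (G : ℕ → ℂ) (b : ℕ) : act (f * g) G b = act f (act g G) b := by
  induction f using Polynomial.induction_on' with
  | add p q hp hq => rw [add_mul, act_add, hp, hq, act_add]
  | monomial n a =>
    rw [act_monomial]
    induction g using Polynomial.induction_on' with
    | add p q hp hq => rw [mul_add, act_add, hp, hq, act_add]; ring
    | monomial m c =>
      rw [monomial_mul_monomial, act_monomial, act_monomial]
      rw [add_assoc]; ring

/-- The ℓ¹ norm of the coefficients. -/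
noncomputable def l1 (f : ℂ[X]) : ℝ := f.sum fun _ a => ‖a‖

lemma l1_nonneg (f : ℂ[X]) : 0 ≤ l1 f := Finset.sum_nonneg fun _ _ => norm_nonneg _

lemma norm_act_le (f : ℂ[X]) (G : ℕ → ℂ) (b : ℕ) (A : ℝ) (h : ∀ k, ‖G (b + k)‖ ≤ A) :
    ‖act f G b‖ ≤ l1 f * A := by
  unfold act l1
  rw [Polynomial.sum_def, Polynomial.sum_def, Finset.sum_mul]
  refine (norm_sum_le _ _).trans (Finset.sum_le_sum fun k _ => ?_)
  rw [norm_mul]
  exact mul_le_mul_of_nonneg_left (h k) (norm_nonneg _)

lemma act_psi (N p : ℕ) (G : ℕ → ℂ) (b : ℕ) :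
    act (psi N p) G b = ∑ j ∈ range p, G (b + j * (N / p)) := by
  unfold psi
  rw [act_sum]
  refine Finset.sum_congr rfl fun j _ => ?_
  rw [← monomial_one_right_eq_X_pow, act_monomial, one_mul]

/-- The monic polynomial of degree at most `φ(N)` in the ideal generated by the `Ψ_{N,p}`. -/
lemma exists_monic (P : Finset ℕ) (hP : ∀ p ∈ P, p.Prime) (hne : P.Nonempty) :
    ∃ (D : ℂ[X]) (Q : ℕ → ℂ[X]), D.Monic ∧ D.natDegree ≤ Nat.totient (∏ p ∈ P, p) ∧
      D = ∑ p ∈ P, Q p * psi (∏ p ∈ P, p) p := by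
  classical
  set N := ∏ p ∈ P, p with hN
  have hNpos : 0 < N := Finset.prod_pos fun p hp => (hP p hp).pos
  have hdvd : ∀ p ∈ P, p ∣ N := fun p hp => Finset.dvd_prod_of_mem _ hp
  set I : Ideal ℂ[X] := Ideal.span ((fun p => psi N p) '' (P : Set ℕ)) with hI
  obtain ⟨D0, hD0⟩ := (IsPrincipalIdealRing.principal I).principal
  -- psi N p * (X^(N/p) - 1) = X^N - 1
  have hfac : ∀ p ∈ P, psi N p * (X ^ (N / p) - 1) = (X : ℂ[X]) ^ N - 1 := by
    intro p hp
    have h1 : psi N p = ∑ j ∈ range p, ((X : ℂ[X]) ^ (N / p)) ^ j := by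
      unfold psi
      refine Finset.sum_congr rfl fun j _ => ?_
      rw [← pow_mul, mul_comm]
    rw [h1, geom_sum_mul, ← pow_mul, Nat.div_mul_cancel (hdvd p hp)]
  have hXN : ((X : ℂ[X]) ^ N - 1) ≠ 0 := X_pow_sub_C_ne_zero hNpos 1
  obtain ⟨p0, hp0⟩ := hne
  have hpsi0 : psi N p0 ≠ 0 := by
    intro h
    have := hfac p0 hp0
    rw [h, zero_mul] at this
    exact hXN this.symm
  have hmem : ∀ p ∈ P, psi N p ∈ I := fun p hp => Ideal.subset_span ⟨p, hp, rfl⟩
  have hD0dvd : ∀ p ∈ P, D0 ∣ psi N p := by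
    intro p hp
    have := hmem p hp
    rw [hD0] at this
    exact Ideal.mem_span_singleton.mp this
  have hD0ne : D0 ≠ 0 := by
    intro h
    have := hD0dvd p0 hp0
    rw [h, zero_dvd_iff] at this
    exact hpsi0 this
  set D := D0 * C (D0.leadingCoeff)⁻¹ with hD
  have hmonic : D.Monic := monic_mul_leadingCoeff_inv hD0ne
  have hDne : D ≠ 0 := hmonic.ne_zero
  have hDdvd : ∀ p ∈ P, D ∣ psi N p := by
    intro p hp
    have hu : IsUnit (C (D0.leadingCoeff)⁻¹ : ℂ[X]) := by
      rw [isUnit_C]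
      exact (inv_ne_zero (leadingCoeff_ne_zero.mpr hD0ne)).isUnit
    rw [hD]
    exact (hu.mul_right_dvd).mpr (hD0dvd p hp)
  have hDI : D ∈ I := by
    rw [hD]
    refine Ideal.mul_mem_right _ _ ?_
    rw [hD0]
    exact Ideal.mem_span_singleton_self D0
  -- degree bound
  have hDdvdX : D ∣ (X : ℂ[X]) ^ N - 1 := by
    refine (hDdvd p0 hp0).trans ⟨X ^ (N / p0) - 1, (hfac p0 hp0).symm⟩
  have hsep : D.Separable := by
    have h1 : ((X : ℂ[X]) ^ N - 1).Separable := by
      rw [← C_1]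
      exact separable_X_pow_sub_C (1 : ℂ) (by exact_mod_cast hNpos.ne') one_ne_zero
    exact h1.of_dvd hDdvdX
  have hroots : D.roots.toFinset ⊆ primitiveRoots N ℂ := by
    intro ζ hζ
    rw [Multiset.mem_toFinset, mem_roots hDne] at hζ
    have hζN : ζ ^ N = 1 := by
      obtain ⟨E, hE⟩ := hDdvdX
      have : ((X : ℂ[X]) ^ N - 1).eval ζ = 0 := by rw [hE, eval_mul, hζ, zero_mul]
      simpa [sub_eq_zero] using this
    rw [mem_primitiveRoots hNpos]
    by_contra hprim
    -- order is a proper divisor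
    have hord : orderOf ζ ∣ N := orderOf_dvd_of_pow_eq_one hζN
    have hordne : orderOf ζ ≠ N := by
      intro h
      exact hprim (h ▸ IsPrimitiveRoot.orderOf ζ)
    obtain ⟨q, hq⟩ := hord
    have hq1 : q ≠ 1 := by
      rintro rfl
      exact hordne (by rw [hq, mul_one])
    obtain ⟨p, hpp, hpq⟩ := Nat.exists_prime_and_dvd hq1
    have hpN : p ∣ N := hpq.trans ⟨orderOf ζ, by rw [hq]; ring⟩
    have hpP : p ∈ P := by
      rw [hN, Prime.dvd_finsetProd_iff hpp.prime] at hpN
      obtain ⟨r, hr, hpr⟩ := hpN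
      rwa [(Nat.prime_dvd_prime_iff_eq hpp (hP r hr)).mp hpr]
    have hζp : ζ ^ (N / p) = 1 := by
      obtain ⟨t, ht⟩ := hpq
      have : N / p = orderOf ζ * t := by
        rw [hq, ht, show orderOf ζ * (p * t) = (orderOf ζ * t) * p by ring,
          Nat.mul_div_cancel _ hpp.pos]
      rw [this, pow_mul, pow_orderOf_eq_one, one_pow]
    obtain ⟨E, hE⟩ := hDdvd p hpP
    have h0 : (psi N p).eval ζ = 0 := by rw [hE, eval_mul, hζ, zero_mul]
    have h1 : (psi N p).eval ζ = p := by
      unfold psi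
      rw [eval_finsetSum]
      have : ∀ j ∈ range p, ((X : ℂ[X]) ^ (j * (N / p))).eval ζ = 1 := by
        intro j _
        rw [eval_pow, eval_X, mul_comm, pow_mul, hζp, one_pow]
      rw [Finset.sum_congr rfl this]
      simp
    rw [h0] at h1
    exact hpp.ne_zero (by exact_mod_cast h1.symm)
  have hdeg : D.natDegree ≤ Nat.totient N := by
    have h1 : Multiset.card D.roots = D.natDegree := by
      exact (IsAlgClosed.splits D).natDegree_eq_card_roots.symm
    have h2 : D.roots.Nodup := nodup_roots hsep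
    rw [← h1, ← Multiset.toFinset_card_of_nodup h2, ← Complex.card_primitiveRoots N]
    exact Finset.card_le_card hroots
  -- representation
  have hrep : ∃ Q : ℕ → ℂ[X], D = ∑ p ∈ P, Q p * psi N p := by
    have : D ∈ Submodule.span ℂ[X] ((fun p => psi N p) '' (P : Set ℕ)) := hDI
    rw [Submodule.mem_span_image_finset_iff_exists_fun] at this
    obtain ⟨c, hc⟩ := this
    refine ⟨fun p => if h : p ∈ P then c ⟨p, h⟩ else 0, ?_⟩
    rw [← hc, ← Finset.sum_attach P (fun p => (if h : p ∈ P then c ⟨p, h⟩ else 0) * psi N p)]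
    refine Finset.sum_congr rfl fun x _ => ?_
    rw [dif_pos x.2, smul_eq_mul]
  obtain ⟨Q, hQ⟩ := hrep
  exact ⟨D, Q, hmonic, hdeg, hQ⟩

/-- Sequences with controlled `p`-averages that are controlled on `φ(N)` consecutive integers are
controlled everywhere. -/
theorem recurrence (P : Finset ℕ) (hP : ∀ p ∈ P, p.Prime) (hne : P.Nonempty) (b : ℕ) :
    ∃ C : ℝ, 0 ≤ C ∧ ∀ (G : ℕ → ℂ) (A : ℝ), 0 ≤ A →
      (∀ p ∈ P, ∀ b, ‖∑ j ∈ range p, G (b + j * ((∏ p ∈ P, p) / p))‖ ≤ A) →
      (∀ b, b < Nat.totient (∏ p ∈ P, p) → ‖G b‖ ≤ A) → ‖G b‖ ≤ C * A := by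
  classical
  obtain ⟨D, Q, hmonic, hdeg, hQ⟩ := exists_monic P hP hne
  induction b using Nat.strong_induction_on with
  | _ b ih =>
    by_cases hb : b < D.natDegree
    · exact ⟨1, zero_le_one, fun G A _ _ h => by
        rw [one_mul]; exact h b (lt_of_lt_of_le hb hdeg)⟩
    · push Not at hb
      obtain ⟨b0, rfl⟩ := Nat.exists_eq_add_of_le' hb
      -- choose constants for smaller indices
      have hch : ∀ k : ℕ, ∃ C : ℝ, 0 ≤ C ∧ (k < D.natDegree → ∀ (G : ℕ → ℂ) (A : ℝ), 0 ≤ A →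
          (∀ p ∈ P, ∀ b, ‖∑ j ∈ range p, G (b + j * ((∏ p ∈ P, p) / p))‖ ≤ A) →
          (∀ b, b < Nat.totient (∏ p ∈ P, p) → ‖G b‖ ≤ A) → ‖G (b0 + k)‖ ≤ C * A) := by
        intro k
        by_cases hk : k < D.natDegree
        · obtain ⟨C, hC, h⟩ := ih (b0 + k) (by omega)
          exact ⟨C, hC, fun _ => h⟩
        · exact ⟨0, le_rfl, fun h => absurd h hk⟩
      choose Cf hCf0 hCf using hch
      refine ⟨(∑ p ∈ P, l1 (Q p)) + ∑ k ∈ range D.natDegree, ‖D.coeff k‖ * Cf k, ?_, ?_⟩
      · exact add_nonneg (Finset.sum_nonneg fun p _ => l1_nonneg _)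
          (Finset.sum_nonneg fun k _ => mul_nonneg (norm_nonneg _) (hCf0 k))
      intro G A hA h1 h2
      have e1 : act D G b0 = ∑ p ∈ P, act (Q p) (act (psi (∏ p ∈ P, p) p) G) b0 := by
        conv_lhs => rw [hQ]
        rw [act_sum]
        refine Finset.sum_congr rfl fun p _ => ?_
        rw [act_mul]
      have e2 : act D G b0 = G (b0 + D.natDegree) +
          ∑ k ∈ range D.natDegree, D.coeff k * G (b0 + k) := by
        unfold act
        rw [Polynomial.sum_over_range' _ (by simp) (D.natDegree + 1) (Nat.lt_succ_self _),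
          Finset.sum_range_succ]
        have : D.coeff D.natDegree = 1 := hmonic.coeff_natDegree
        rw [this, one_mul, add_comm]
      have e3 : ‖act D G b0‖ ≤ (∑ p ∈ P, l1 (Q p)) * A := by
        rw [e1, Finset.sum_mul]
        refine (norm_sum_le _ _).trans (Finset.sum_le_sum fun p hp => ?_)
        refine norm_act_le _ _ _ _ fun k => ?_
        rw [act_psi]
        exact h1 p hp _
      have e4 : ‖∑ k ∈ range D.natDegree, D.coeff k * G (b0 + k)‖ ≤
          (∑ k ∈ range D.natDegree, ‖D.coeff k‖ * Cf k) * A := by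
        rw [Finset.sum_mul]
        refine (norm_sum_le _ _).trans (Finset.sum_le_sum fun k hk => ?_)
        rw [norm_mul, mul_assoc]
        exact mul_le_mul_of_nonneg_left (hCf k (Finset.mem_range.mp hk) G A hA h1 h2)
          (norm_nonneg _)
      have e5 : G (b0 + D.natDegree) = act D G b0 -
          ∑ k ∈ range D.natDegree, D.coeff k * G (b0 + k) := by rw [e2]; ring
      rw [e5, add_mul]
      exact (norm_sub_le _ _).trans (add_le_add e3 e4)

end H28.Cusp
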