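import Mathlib

set_option autoImplicit false

open UpperHalfPlane ModularGroup MatrixGroups Modular Matrix

namespace H28.Cusp

lemma im_smul_le (g : SL(2, ℤ)) (τ : ℍ) : (g • τ).im ≤ max τ.im (1 / τ.im) := by
  have hy := τ.im_pos
  have him : (g • τ).im = τ.im / Complex.normSq (denom (g : GL (Fin 2) ℝ) τ) :=
    ModularGroup.im_smul_eq_div_normSq g τ
  have hpos : 0 < Complex.normSq (denom (g : GL (Fin 2) ℝ) τ) :=
    normSq_denom_pos _ τ.im_ne_zero
  rw [him]
  by_cases hc : g 1 0 = 0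
  · refine le_max_of_le_left ?_
    have hdet := g.det_coe
    rw [Matrix.det_fin_two, hc, mul_zero, sub_zero] at hdet
    have hd : (g 1 1) ^ 2 = 1 := by
      have hu : IsUnit (g 1 1 : ℤ) := IsUnit.of_mul_eq_one (g 0 0 : ℤ) (by rw [mul_comm]; exact hdet)
      rcases Int.isUnit_iff.mp hu with h | h
      · have e : (g 1 1 : ℤ) ^ 2 = (1 : ℤ) ^ 2 := congrArg (fun x : ℤ => x ^ 2) h
        simpa using e
      · have e : (g 1 1 : ℤ) ^ 2 = (-1 : ℤ) ^ 2 := congrArg (fun x : ℤ => x ^ 2) h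
        simpa using e
    have hn : Complex.normSq (denom (g : GL (Fin 2) ℝ) τ) = 1 := by
      rw [denom_apply, hc]
      simp only [Int.cast_zero, zero_mul, zero_add]
      rw [← Complex.ofReal_intCast, Complex.normSq_ofReal]
      have : ((g 1 1 : ℤ) : ℝ) ^ 2 = 1 := by exact_mod_cast hd
      nlinarith
    rw [hn, div_one]
  · refine le_max_of_le_right ?_
    have h1 := τ.c_mul_im_sq_le_normSq_denom (g : GL (Fin 2) ℝ)
    have h2 : (1 : ℝ) ≤ ((g 1 0 : ℤ) : ℝ) ^ 2 := by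
      have : (1 : ℤ) ≤ (g 1 0) ^ 2 := by
        have := sq_pos_of_ne_zero hc
        omega
      exact_mod_cast this
    have h3 : τ.im ^ 2 ≤ Complex.normSq (denom (g : GL (Fin 2) ℝ) τ) := by
      refine le_trans ?_ h1
      have : ((g : GL (Fin 2) ℝ) 1 0 : ℝ) = ((g 1 0 : ℤ) : ℝ) := by simp
      rw [this, mul_pow]
      nlinarith [sq_nonneg τ.im]
    rw [div_le_div_iff₀ hpos hy]
    nlinarith

lemma exists_cover (R ρ : ℝ) (hρ : 0 < ρ) :
    ∃ G : Finset SL(2, ℤ), ∀ τ : ℍ, |τ.re| ≤ R → ρ ≤ τ.im → ∃ g ∈ G, g • τ ∈ 𝒟 := by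
  classical
  -- compact part
  set K0 : Set ℍ := {τ | |τ.re| ≤ R ∧ ρ ≤ τ.im ∧ τ.im ≤ 1} with hK0
  have hK0c : IsCompact K0 := by
    have hcoe : UpperHalfPlane.coe '' K0 = {z : ℂ | |z.re| ≤ R ∧ ρ ≤ z.im ∧ z.im ≤ 1} := by
      ext z
      constructor
      · rintro ⟨τ, hτ, rfl⟩
        exact hτ
      · rintro ⟨h1, h2, h3⟩
        exact ⟨⟨z, lt_of_lt_of_le hρ h2⟩, ⟨h1, h2, h3⟩, rfl⟩
    rw [isEmbedding_coe.isCompact_iff, hcoe, Metric.isCompact_iff_isClosed_bounded]
    constructor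
    · apply (isClosed_le (continuous_abs.comp Complex.continuous_re) continuous_const).inter
      apply (isClosed_le continuous_const Complex.continuous_im).inter
      exact isClosed_le Complex.continuous_im continuous_const
    · refine (Metric.isBounded_iff_subset_closedBall 0).mpr ⟨|R| + 1, fun z hz => ?_⟩
      rw [mem_closedBall_zero_iff]
      refine (Complex.norm_le_abs_re_add_abs_im z).trans ?_
      have h1 : |z.im| ≤ 1 := abs_le.mpr ⟨by linarith [hz.2.1], hz.2.2⟩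
      exact add_le_add (hz.1.trans (le_abs_self R)) h1
  set L0 : Set ℍ := truncatedFundamentalDomain (max 1 (1 / ρ)) with hL0
  have hL0c : IsCompact L0 := isCompact_truncatedFundamentalDomain _
  have hfin := ProperlyDiscontinuousSMul.finite_disjoint_inter_image (Γ := 𝒮ℒ) hK0c hL0c
  let φ : SL(2, ℤ) → 𝒮ℒ := fun g => ⟨Matrix.SpecialLinearGroup.mapGL ℝ g, ⟨g, rfl⟩⟩
  have hφ : Function.Injective φ := by
    intro a b h
    have := congrArg Subtype.val h
    exact Matrix.SpecialLinearGroup.mapGL_injective this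
  have hfin2 : Set.Finite (φ ⁻¹' {γ : 𝒮ℒ | ((γ • ·) '' K0 ∩ L0).Nonempty}) :=
    hfin.preimage hφ.injOn
  refine ⟨hfin2.toFinset ∪ (Finset.Icc (-(⌈R⌉ + 1)) (⌈R⌉ + 1)).image (fun n => T ^ n), ?_⟩
  intro τ h1 h2
  by_cases h3 : τ.im ≤ 1
  · obtain ⟨g, hg⟩ := exists_smul_mem_fd τ
    refine ⟨g, Finset.mem_union_left _ ?_, hg⟩
    rw [Set.Finite.mem_toFinset, Set.mem_preimage]
    refine ⟨g • τ, ⟨τ, ⟨h1, h2, h3⟩, rfl⟩, hg, ?_⟩
    refine (im_smul_le g τ).trans (max_le_max h3 ?_)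
    exact one_div_le_one_div_of_le hρ h2
  · push Not at h3
    refine ⟨T ^ (-round τ.re), Finset.mem_union_right _ ?_, ?_⟩
    · refine Finset.mem_image.mpr ⟨-round τ.re, ?_, rfl⟩
      rw [Finset.mem_Icc]
      have h4 := abs_le.mp (abs_sub_round τ.re)
      have h5 := abs_le.mp h1
      have h6 := Int.le_ceil R
      constructor
      · have : ((-(⌈R⌉ + 1) : ℤ) : ℝ) - 1 < ((-round τ.re : ℤ) : ℝ) := by push_cast; linarith
        have : (-(⌈R⌉ + 1) : ℤ) - 1 < -round τ.re := by exact_mod_cast this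
        omega
      · have : ((-round τ.re : ℤ) : ℝ) < ((⌈R⌉ + 1 : ℤ) : ℝ) + 1 := by push_cast; linarith
        have : (-round τ.re : ℤ) < (⌈R⌉ + 1) + 1 := by exact_mod_cast this
        omega
    · constructor
      · rw [Complex.one_le_normSq_iff]
        refine le_trans ?_ (Complex.abs_im_le_norm _)
        rw [coe_im, im_T_zpow_smul, abs_of_pos τ.im_pos]
        exact h3.le
      · rw [re_T_zpow_smul]
        push_cast
        rw [← sub_eq_add_neg]
        exact abs_sub_round τ.re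

end H28.Cusp
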