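import Mathlib
import Pool.Agent.H28.Cusp.Cover

set_option autoImplicit false

open UpperHalfPlane ModularGroup MatrixGroups Modular Matrix MeasureTheory
open scoped ENNReal

namespace H28.Cusp

lemma measurableSet_fd : MeasurableSet (𝒟 : Set ℍ) := isClosed_fd.measurableSet

lemma measurePreserving_SL (g : SL(2, ℤ)) :
    MeasurePreserving (fun τ : ℍ => g • τ) volume volume :=
  measurePreserving_smul (Matrix.SpecialLinearGroup.mapGL ℝ g : GL (Fin 2) ℝ) (volume : Measure ℍ)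

lemma lintegral_region_le (f : ℍ → ℝ≥0∞) (hf : Measurable f)
    (hinv : ∀ (g : SL(2, ℤ)) (τ : ℍ), f (g • τ) = f τ) (E : Set ℍ)
    (G : Finset SL(2, ℤ)) (hG : ∀ τ ∈ E, ∃ g ∈ G, g • τ ∈ 𝒟) :
    ∫⁻ τ in E, f τ ≤ G.card * ∫⁻ τ in (𝒟 : Set ℍ), f τ := by
  classical
  have h1 : E ⊆ ⋃ g : G, (fun τ : ℍ => (g : SL(2, ℤ)) • τ) ⁻¹' (𝒟 : Set ℍ) := by
    intro τ hτ
    obtain ⟨g, hg, h⟩ := hG τ hτ
    exact Set.mem_iUnion.mpr ⟨⟨g, hg⟩, h⟩
  calc ∫⁻ τ in E, f τ ≤ ∫⁻ τ in ⋃ g : G, (fun τ : ℍ => (g : SL(2, ℤ)) • τ) ⁻¹' (𝒟 : Set ℍ), f τ :=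
        lintegral_mono_set h1
    _ ≤ ∑' g : G, ∫⁻ τ in (fun τ : ℍ => (g : SL(2, ℤ)) • τ) ⁻¹' (𝒟 : Set ℍ), f τ :=
        lintegral_iUnion_le _ _
    _ = ∑' g : G, ∫⁻ τ in (𝒟 : Set ℍ), f τ := by
        refine tsum_congr fun g => ?_
        rw [← (measurePreserving_SL (g : SL(2, ℤ))).setLIntegral_comp_preimage
          measurableSet_fd hf]
        refine lintegral_congr fun τ => ?_
        rw [hinv]
    _ = G.card * ∫⁻ τ in (𝒟 : Set ℍ), f τ := by
        rw [tsum_fintype, Finset.sum_const, Finset.card_univ, Fintype.card_coe, nsmul_eq_mul]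

lemma lintegral_smul_le (R ρ : ℝ) (hρ : 0 < ρ) :
    ∃ n : ℕ, ∀ (f : ℍ → ℝ≥0∞), Measurable f → (∀ (g : SL(2, ℤ)) (τ : ℍ), f (g • τ) = f τ) →
      ∀ α : GL (Fin 2) ℝ, (∀ τ ∈ (𝒟 : Set ℍ), |(α • τ).re| ≤ R ∧ ρ ≤ (α • τ).im) →
      ∫⁻ τ in (𝒟 : Set ℍ), f (α • τ) ≤ n * ∫⁻ τ in (𝒟 : Set ℍ), f τ := by
  obtain ⟨G, hG⟩ := exists_cover R ρ hρ
  refine ⟨G.card, fun f hf hinv α hα => ?_⟩
  set E : Set ℍ := {τ | |τ.re| ≤ R ∧ ρ ≤ τ.im} with hE
  have hEm : MeasurableSet E := by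
    have h1 : IsClosed E := by
      apply (isClosed_le (continuous_abs.comp UpperHalfPlane.continuous_re) continuous_const).inter
      exact isClosed_le continuous_const UpperHalfPlane.continuous_im
    exact h1.measurableSet
  have hmp : MeasurePreserving (fun τ : ℍ => α • τ) volume volume :=
    measurePreserving_smul α (volume : Measure ℍ)
  calc ∫⁻ τ in (𝒟 : Set ℍ), f (α • τ) ≤ ∫⁻ τ in (fun τ : ℍ => α • τ) ⁻¹' E, f (α • τ) :=
        lintegral_mono_set fun τ hτ => hα τ hτ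
    _ = ∫⁻ τ in E, f τ := hmp.setLIntegral_comp_preimage hEm hf
    _ ≤ G.card * ∫⁻ τ in (𝒟 : Set ℍ), f τ :=
        lintegral_region_le f hf hinv E G fun τ hτ => hG τ hτ.1 hτ.2

/-- Invariance under the two generators gives invariance under `SL(2, ℤ)`. -/
lemma inv_SL {U : ℂ → ℂ} (hinv : ∀ z : ℂ, 0 < z.im → U (z + 1) = U z ∧ U (-z⁻¹) = U z)
    (g : SL(2, ℤ)) : ∀ τ : ℍ, U ((g • τ : ℍ) : ℂ) = U τ := by
  have hT : ∀ τ : ℍ, U ((T • τ : ℍ) : ℂ) = U τ := by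
    intro τ
    have h := coe_T_zpow_smul_eq (z := τ) (n := 1)
    rw [zpow_one, Int.cast_one] at h
    rw [h]
    exact (hinv τ τ.im_pos).1
  have hS : ∀ τ : ℍ, U ((S • τ : ℍ) : ℂ) = U τ := by
    intro τ
    have h : ((S • τ : ℍ) : ℂ) = -(τ : ℂ)⁻¹ := by
      rw [modular_S_smul]
      simp [inv_neg]
    rw [h]
    exact (hinv τ τ.im_pos).2
  have hmem : g ∈ Subgroup.closure {S, T} := by simp [SpecialLinearGroup.SL2Z_generators]
  induction hmem using Subgroup.closure_induction with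
  | mem x hx =>
    intro τ
    rcases hx with rfl | hx
    · exact hS τ
    · rw [Set.mem_singleton_iff] at hx
      subst hx
      exact hT τ
  | one => intro τ; rw [one_smul]
  | mul x y _ _ hx hy => intro τ; rw [mul_smul, hx, hy]
  | inv x _ hx =>
    intro τ
    have := hx (x⁻¹ • τ)
    rw [smul_inv_smul] at this
    exact this.symm

/-- The density. -/
lemma lintegral_conv {U : ℂ → ℂ} (hcont : ContinuousOn U {z : ℂ | 0 < z.im})
    (s : Set ℍ) (hs : MeasurableSet s) :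
    ∫⁻ τ in s, ENNReal.ofReal (‖U (τ : ℂ)‖ ^ 2) =
      ∫⁻ z in UpperHalfPlane.coe '' s, ENNReal.ofReal (‖U z‖ ^ 2 / z.im ^ 2) := by
  have hVc : Continuous fun τ : ℍ => U (τ : ℂ) := by
    refine hcont.comp_continuous UpperHalfPlane.continuous_coe fun τ => τ.im_pos
  have hfm : Measurable fun τ : ℍ => ENNReal.ofReal (‖U (τ : ℂ)‖ ^ 2) := by
    exact (hVc.norm.pow 2).measurable.ennreal_ofReal
  have hmp : MeasurePreserving UpperHalfPlane.coe (volume.comap UpperHalfPlane.coe)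
      (volume.restrict (.range UpperHalfPlane.coe)) :=
    ⟨measurable_coe, by rw [measurableEmbedding_coe.map_comap]⟩
  have hdm : Measurable fun z : ℍ => (↑((1 / NNReal.mk z.im z.im_pos.le : NNReal) ^ 2) : ℝ≥0∞) := by
    apply Measurable.coe_nnreal_ennreal
    apply Measurable.pow_const
    apply Measurable.const_div
    exact UpperHalfPlane.continuous_im.measurable.subtype_mk
  rw [volume_def, setLIntegral_withDensity_eq_setLIntegral_mul _ hdm hfm hs]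
  have e1 : ∀ τ : ℍ, ((fun z : ℍ => (↑((1 / NNReal.mk z.im z.im_pos.le : NNReal) ^ 2) : ℝ≥0∞)) *
      fun τ : ℍ => ENNReal.ofReal (‖U (τ : ℂ)‖ ^ 2)) τ =
      (fun z : ℂ => ENNReal.ofReal (‖U z‖ ^ 2 / z.im ^ 2)) (UpperHalfPlane.coe τ) := by
    intro τ
    have hy := τ.im_pos
    simp only [Pi.mul_apply]
    rw [← ENNReal.ofReal_coe_nnreal, ← ENNReal.ofReal_mul (NNReal.coe_nonneg _)]
    congr 1
    push_cast
    rw [coe_im]
    field_simp
  rw [lintegral_congr e1]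
  refine (hmp.setLIntegral_comp_emb measurableEmbedding_coe
    (fun z : ℂ => ENNReal.ofReal (‖U z‖ ^ 2 / z.im ^ 2)) s).trans ?_
  rw [Measure.restrict_restrict_of_subset (Set.image_subset_range _ _)]

/-- The standard fundamental domain as a subset of `ℂ`. -/
lemma coe_fd' : UpperHalfPlane.coe '' (𝒟 : Set ℍ) =
    {z : ℂ | 0 < z.im ∧ |z.re| ≤ 1 / 2 ∧ 1 ≤ ‖z‖} := by
  rw [coe_fd]
  ext z
  simp only [Set.mem_ofPred_eq]
  tauto

lemma lintegral_fd_ne_top {U : ℂ → ℂ} (hcont : ContinuousOn U {z : ℂ | 0 < z.im})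
    (hint : IntegrableOn (fun z : ℂ => ‖U z‖ ^ 2 / z.im ^ 2)
      {z : ℂ | 0 < z.im ∧ |z.re| ≤ 1 / 2 ∧ 1 ≤ ‖z‖}) :
    ∫⁻ τ in (𝒟 : Set ℍ), ENNReal.ofReal (‖U (τ : ℂ)‖ ^ 2) ≠ ⊤ := by
  rw [lintegral_conv hcont _ measurableSet_fd, coe_fd']
  have h := hint.2
  rw [hasFiniteIntegral_iff_enorm] at h
  refine ne_of_lt (lt_of_le_of_lt (lintegral_mono fun z => ?_) h)
  rw [← ofReal_norm]
  refine ENNReal.ofReal_le_ofReal (le_abs_self _)

/-- If the integral over the fundamental domain vanishes then `U = 0` on the half plane. -/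
lemma eq_zero_of_lintegral {U : ℂ → ℂ} (hcont : ContinuousOn U {z : ℂ | 0 < z.im})
    (hinv : ∀ z : ℂ, 0 < z.im → U (z + 1) = U z ∧ U (-z⁻¹) = U z)
    (h0 : ∫⁻ τ in (𝒟 : Set ℍ), ENNReal.ofReal (‖U (τ : ℂ)‖ ^ 2) = 0) :
    ∀ z : ℂ, 0 < z.im → U z = 0 := by
  intro z hz
  have hVc : Continuous fun τ : ℍ => U (τ : ℂ) := by
    refine hcont.comp_continuous UpperHalfPlane.continuous_coe fun τ => τ.im_pos
  have hfm : Measurable fun τ : ℍ => ENNReal.ofReal (‖U (τ : ℂ)‖ ^ 2) := by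
    exact (hVc.norm.pow 2).measurable.ennreal_ofReal
  have hfi : ∀ (g : SL(2, ℤ)) (τ : ℍ), ENNReal.ofReal (‖U ((g • τ : ℍ) : ℂ)‖ ^ 2) =
      ENNReal.ofReal (‖U (τ : ℂ)‖ ^ 2) := fun g τ => by rw [inv_SL hinv g τ]
  -- a box around z
  set R : ℝ := |z.re| + 1 with hR
  set ρ : ℝ := z.im / 2 with hρ
  obtain ⟨G, hG⟩ := exists_cover R ρ (by positivity)
  set E : Set ℍ := {τ | |τ.re| < R ∧ ρ < τ.im} with hE
  have hEo : IsOpen E := by
    apply (isOpen_lt (continuous_abs.comp UpperHalfPlane.continuous_re) continuous_const).inter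
    exact isOpen_lt continuous_const UpperHalfPlane.continuous_im
  have h1 : ∫⁻ τ in E, ENNReal.ofReal (‖U (τ : ℂ)‖ ^ 2) = 0 := by
    have := lintegral_region_le _ hfm hfi E G fun τ hτ => hG τ hτ.1.le hτ.2.le
    rw [h0, mul_zero] at this
    exact le_antisymm this zero_le
  rw [lintegral_conv hcont E hEo.measurableSet] at h1
  have hEc : UpperHalfPlane.coe '' E = {w : ℂ | |w.re| < R ∧ ρ < w.im} := by
    ext w
    constructor
    · rintro ⟨τ, hτ, rfl⟩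
      exact hτ
    · rintro ⟨h1, h2⟩
      exact ⟨⟨w, lt_trans (by positivity) h2⟩, ⟨h1, h2⟩, rfl⟩
  rw [hEc] at h1
  set W : Set ℂ := {w : ℂ | |w.re| < R ∧ ρ < w.im} with hW
  have hWo : IsOpen W := by
    apply (isOpen_lt (continuous_abs.comp Complex.continuous_re) continuous_const).inter
    exact isOpen_lt continuous_const Complex.continuous_im
  have hWpos : ∀ w ∈ W, 0 < w.im := fun w hw => lt_trans (by positivity) hw.2
  have hcW : ContinuousOn (fun w : ℂ => ‖U w‖ ^ 2 / w.im ^ 2) W := by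
    apply ContinuousOn.div
    · exact ((hcont.mono hWpos).norm).pow 2
    · exact (Complex.continuous_im.pow 2).continuousOn
    · intro w hw
      have := hWpos w hw
      positivity
  have hme : AEMeasurable (fun w : ℂ => ENNReal.ofReal (‖U w‖ ^ 2 / w.im ^ 2))
      (volume.restrict W) :=
    (hcW.aemeasurable hWo.measurableSet).ennreal_ofReal
  rw [lintegral_eq_zero_iff' hme] at h1
  have h2 : (fun w : ℂ => ‖U w‖ ^ 2 / w.im ^ 2) =ᵐ[volume.restrict W] fun _ => (0 : ℝ) := by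
    filter_upwards [h1] with w hw
    have h3 : ‖U w‖ ^ 2 / w.im ^ 2 ≤ 0 := by
      simpa [ENNReal.ofReal_eq_zero] using hw
    exact le_antisymm h3 (by positivity)
  have h4 := Measure.eqOn_open_of_ae_eq h2 hWo hcW continuousOn_const
  have hzW : z ∈ W := ⟨by rw [hR]; linarith, by rw [hρ]; linarith⟩
  have h5 : ‖U z‖ ^ 2 / z.im ^ 2 = 0 := h4 hzW
  have h6 : ‖U z‖ ^ 2 = 0 := by
    rcases div_eq_zero_iff.mp h5 with h | h
    · exact h
    · exfalso; exact (pow_ne_zero 2 hz.ne') h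
  exact norm_eq_zero.mp (pow_eq_zero_iff (two_ne_zero)|>.mp h6)

/-- The matrix `(a b; 0 d)` with positive `a, d`. -/
noncomputable def ut (a b d : ℝ) (h : a * d ≠ 0) : GL (Fin 2) ℝ :=
  Matrix.GeneralLinearGroup.mkOfDetNeZero !![a, b; 0, d] (by simpa using h)

lemma coe_ut_smul (a b d : ℝ) (ha : 0 < a) (hd : 0 < d) (τ : ℍ) :
    ((ut a b d (mul_pos ha hd).ne' • τ : ℍ) : ℂ) = (a * τ + b) / d := by
  have hdet : 0 < (ut a b d (mul_pos ha hd).ne').det.val := by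
    simp [ut, Matrix.GeneralLinearGroup.mkOfDetNeZero, mul_pos ha hd]
  rw [coe_smul_of_det_pos hdet]
  simp [ut, Matrix.GeneralLinearGroup.mkOfDetNeZero, num, denom]

/-- Bound for the Hecke eigenvalues of square integrable eigenfunctions. -/
theorem eigenvalue_bound (p : ℕ) (hp : 0 < p) :
    ∃ B : ℝ, 0 ≤ B ∧ ∀ (U : ℂ → ℂ) (c : ℂ), ContinuousOn U {z : ℂ | 0 < z.im} →
      (∀ z : ℂ, 0 < z.im → U (z + 1) = U z ∧ U (-z⁻¹) = U z) →
      IntegrableOn (fun z : ℂ => ‖U z‖ ^ 2 / z.im ^ 2)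
        {z : ℂ | 0 < z.im ∧ |z.re| ≤ 1 / 2 ∧ 1 ≤ ‖z‖} →
      (∀ z : ℂ, 0 < z.im →
        U ((p : ℂ) * z) + ∑ b ∈ Finset.range p, U ((z + (b : ℂ)) / (p : ℂ)) = c * U z) →
      (∃ z : ℂ, 0 < z.im ∧ U z ≠ 0) → ‖c‖ ≤ B := by
  have hp' : (0 : ℝ) < p := by exact_mod_cast hp
  have hp1 : (1 : ℝ) ≤ p := by exact_mod_cast hp
  obtain ⟨n, hn⟩ := lintegral_smul_le (p + 1) (1 / (2 * p)) (by positivity)
  refine ⟨Real.sqrt ((p + 1) ^ 2 * n), Real.sqrt_nonneg _, ?_⟩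
  intro U c hcont hinv hint hT hne
  have hVc : Continuous fun τ : ℍ => U (τ : ℂ) := by
    refine hcont.comp_continuous UpperHalfPlane.continuous_coe fun τ => τ.im_pos
  set f : ℍ → ℝ≥0∞ := fun τ => ENNReal.ofReal (‖U (τ : ℂ)‖ ^ 2) with hf
  have hfm : Measurable f := (hVc.norm.pow 2).measurable.ennreal_ofReal
  have hfi : ∀ (g : SL(2, ℤ)) (τ : ℍ), f (g • τ) = f τ := fun g τ => by
    simp only [hf]; rw [inv_SL hinv g τ]
  set J : ℝ≥0∞ := ∫⁻ τ in (𝒟 : Set ℍ), f τ with hJ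
  have hJtop : J ≠ ⊤ := lintegral_fd_ne_top hcont hint
  have hJ0 : J ≠ 0 := by
    intro h
    obtain ⟨z, hz, hUz⟩ := hne
    exact hUz (eq_zero_of_lintegral hcont hinv h z hz)
  -- the matrices
  set α0 : GL (Fin 2) ℝ := ut p 0 1 (mul_pos hp' one_pos).ne' with hα0
  set α : ℕ → GL (Fin 2) ℝ := fun b => ut 1 b p (mul_pos one_pos hp').ne' with hα
  have hα0c : ∀ τ : ℍ, ((α0 • τ : ℍ) : ℂ) = p * τ := by
    intro τ
    rw [hα0, coe_ut_smul _ _ _ hp' one_pos]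
    simp
  have hαc : ∀ (b : ℕ) (τ : ℍ), ((α b • τ : ℍ) : ℂ) = (τ + b) / p := by
    intro b τ
    simp only [hα]
    rw [coe_ut_smul _ _ _ one_pos hp']
    simp
  have hfd : ∀ τ ∈ (𝒟 : Set ℍ), |τ.re| ≤ 1 / 2 ∧ 1 / 2 ≤ τ.im := by
    intro τ hτ
    refine ⟨hτ.2, ?_⟩
    have := three_le_four_mul_im_sq_of_mem_fd hτ
    nlinarith [τ.im_pos]
  have hb0 : ∫⁻ τ in (𝒟 : Set ℍ), f (α0 • τ) ≤ n * J := by
    refine hn f hfm hfi α0 fun τ hτ => ?_
    obtain ⟨h1, h2⟩ := hfd τ hτ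
    have hre : (α0 • τ).re = p * τ.re := by
      rw [← coe_re, hα0c]; simp
    have him : (α0 • τ).im = p * τ.im := by
      rw [← coe_im, hα0c]; simp
    rw [hre, him, abs_mul, abs_of_pos hp']
    constructor
    · nlinarith [abs_nonneg τ.re]
    · rw [div_le_iff₀ (by positivity)]
      have h3 : 1 / 2 ≤ p * τ.im := by nlinarith
      nlinarith
  have hb : ∀ b ∈ Finset.range p, ∫⁻ τ in (𝒟 : Set ℍ), f (α b • τ) ≤ n * J := by
    intro b hbp
    have hb1 : (b : ℝ) ≤ p := by exact_mod_cast (Finset.mem_range.mp hbp).le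
    have hb2 : (0 : ℝ) ≤ b := Nat.cast_nonneg b
    refine hn f hfm hfi (α b) fun τ hτ => ?_
    obtain ⟨h1, h2⟩ := hfd τ hτ
    have hcast : ((τ : ℂ) + b) / p = ((τ : ℂ) + (b : ℝ)) / ((p : ℝ) : ℂ) := by push_cast; rfl
    have hre : (α b • τ).re = (τ.re + b) / p := by
      rw [← coe_re, hαc, hcast, Complex.div_ofReal_re, Complex.add_re, Complex.ofReal_re, coe_re]
    have him : (α b • τ).im = τ.im / p := by
      rw [← coe_im, hαc, hcast, Complex.div_ofReal_im, Complex.add_im, Complex.ofReal_im, coe_im,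
        add_zero]
    rw [hre, him, abs_div, abs_of_pos hp']
    constructor
    · rw [div_le_iff₀ hp']
      have h3 : |τ.re + b| ≤ 1 / 2 + b := (abs_add_le _ _).trans (by
        rw [abs_of_nonneg hb2]; linarith)
      nlinarith
    · rw [div_le_div_iff₀ (by positivity) hp']
      nlinarith
  -- pointwise inequality
  have hpt : ∀ τ : ℍ, ENNReal.ofReal (‖c‖ ^ 2) * f τ ≤
      ENNReal.ofReal (p + 1) * (f (α0 • τ) + ∑ b ∈ Finset.range p, f (α b • τ)) := by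
    intro τ
    simp only [hf]
    rw [← ENNReal.ofReal_mul (by positivity),
      ← ENNReal.ofReal_sum_of_nonneg (fun _ _ => by positivity),
      ← ENNReal.ofReal_add (by positivity) (Finset.sum_nonneg fun _ _ => by positivity),
      ← ENNReal.ofReal_mul (by positivity)]
    apply ENNReal.ofReal_le_ofReal
    have h1 := hT τ τ.im_pos
    set w : ℕ → ℝ := fun b => if b < p then ‖U (((τ : ℂ) + b) / p)‖ else ‖U (p * τ)‖ with hw
    have h2 : ‖c‖ * ‖U (τ : ℂ)‖ ≤ ∑ b ∈ Finset.range (p + 1), w b := by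
      rw [← norm_mul, ← h1, Finset.sum_range_succ]
      have e1 : w p = ‖U (p * τ)‖ := by simp [hw]
      have e2 : ∑ b ∈ Finset.range p, w b =
          ∑ b ∈ Finset.range p, ‖U (((τ : ℂ) + b) / p)‖ :=
        Finset.sum_congr rfl fun b hb => by simp [hw, Finset.mem_range.mp hb]
      rw [e1, e2]
      calc _ ≤ ‖U (p * τ)‖ + ‖∑ b ∈ Finset.range p, U (((τ : ℂ) + b) / p)‖ := norm_add_le _ _
        _ ≤ ‖U (p * τ)‖ + ∑ b ∈ Finset.range p, ‖U (((τ : ℂ) + b) / p)‖ :=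
            add_le_add le_rfl (norm_sum_le _ _)
        _ = _ := by rw [add_comm]
    have h3 := sq_sum_le_card_mul_sum_sq (s := Finset.range (p + 1)) (f := w)
    rw [Finset.card_range, Finset.sum_range_succ (fun b => w b ^ 2)] at h3
    have e1 : w p = ‖U (p * τ)‖ := by simp [hw]
    have e2 : ∑ b ∈ Finset.range p, w b ^ 2 =
        ∑ b ∈ Finset.range p, ‖U (((τ : ℂ) + b) / p)‖ ^ 2 :=
      Finset.sum_congr rfl fun b hb => by simp [hw, Finset.mem_range.mp hb]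
    rw [e1, e2] at h3
    have h4 : (‖c‖ * ‖U (τ : ℂ)‖) ^ 2 ≤ (∑ b ∈ Finset.range (p + 1), w b) ^ 2 :=
      pow_le_pow_left₀ (by positivity) h2 2
    calc ‖c‖ ^ 2 * ‖U (τ : ℂ)‖ ^ 2 = (‖c‖ * ‖U (τ : ℂ)‖) ^ 2 := by ring
      _ ≤ _ := h4.trans h3
      _ = _ := by
        rw [hα0c]
        simp_rw [hαc]
        push_cast
        ring
  have hmain : ENNReal.ofReal (‖c‖ ^ 2) * J ≤ ENNReal.ofReal (p + 1) * ((p + 1) * (n * J)) := by
    have hm0 : Measurable fun τ : ℍ => f (α0 • τ) := hfm.comp (measurable_const_smul α0)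
    have hmb : ∀ b, Measurable fun τ : ℍ => f (α b • τ) :=
      fun b => hfm.comp (measurable_const_smul (α b))
    calc ENNReal.ofReal (‖c‖ ^ 2) * J = ∫⁻ τ in (𝒟 : Set ℍ), ENNReal.ofReal (‖c‖ ^ 2) * f τ := by
          rw [lintegral_const_mul _ hfm]
      _ ≤ ∫⁻ τ in (𝒟 : Set ℍ), ENNReal.ofReal (p + 1) *
            (f (α0 • τ) + ∑ b ∈ Finset.range p, f (α b • τ)) := lintegral_mono hpt
      _ = ENNReal.ofReal (p + 1) * ((∫⁻ τ in (𝒟 : Set ℍ), f (α0 • τ)) +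
            ∑ b ∈ Finset.range p, ∫⁻ τ in (𝒟 : Set ℍ), f (α b • τ)) := by
          have hms : Measurable fun τ : ℍ => f (α0 • τ) + ∑ b ∈ Finset.range p, f (α b • τ) :=
            hm0.add (Finset.measurable_sum _ fun b _ => hmb b)
          rw [lintegral_const_mul _ hms, lintegral_add_left hm0,
            lintegral_finsetSum _ fun b _ => hmb b]
      _ ≤ ENNReal.ofReal (p + 1) * (n * J + ∑ b ∈ Finset.range p, n * J) := by
          gcongr with b hbb
          exact hb b hbb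
      _ = _ := by
          rw [Finset.sum_const, Finset.card_range, nsmul_eq_mul]
          ring
  have h5 : ENNReal.ofReal (‖c‖ ^ 2) ≤ ENNReal.ofReal (p + 1) * ((p + 1) * n) := by
    have h6 : ENNReal.ofReal (‖c‖ ^ 2) * J ≤ (ENNReal.ofReal (p + 1) * ((p + 1) * n)) * J := by
      calc _ ≤ _ := hmain
        _ = _ := by ring
    exact (ENNReal.mul_le_mul_iff_left hJ0 hJtop).mp h6
  have h7 : ENNReal.ofReal (p + 1) * ((p + 1) * n) = ENNReal.ofReal ((p + 1) ^ 2 * n) := by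
    have e : ((p : ℝ≥0∞) + 1) * n = ENNReal.ofReal ((p + 1) * n) := by
      rw [ENNReal.ofReal_mul (by positivity), ENNReal.ofReal_add (by positivity) (by positivity)]
      simp
    rw [e, ← ENNReal.ofReal_mul (by positivity)]
    congr 1
    ring
  rw [h7, ENNReal.ofReal_le_ofReal_iff (by positivity)] at h5
  exact Real.le_sqrt_of_sq_le h5

end H28.Cusp
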