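import Mathlib

set_option autoImplicit false

open Finset

namespace H28.Cusp

/-- There are finite sets of large primes with arbitrarily large sum of reciprocals. -/
lemma exists_primes_sum (p0 : ℕ) (A : ℝ) :
    ∃ P : Finset ℕ, (∀ p ∈ P, p.Prime ∧ p0 ≤ p) ∧ A ≤ ∑ p ∈ P, (1 : ℝ) / p := by
  classical
  by_contra hcon
  push Not at hcon
  apply Nat.Primes.not_summable_one_div
  have hs : Summable (fun n : ℕ => if n.Prime ∧ p0 ≤ n then (1 : ℝ) / n else 0) := by
    refine summable_of_sum_le (c := A) (fun n => by split_ifs <;> positivity) fun u => ?_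
    rw [← Finset.sum_filter]
    refine (hcon _ ?_).le
    intro p hp
    exact (Finset.mem_filter.mp hp).2
  have hs2 : Summable (fun n : ℕ => if n.Prime then (1 : ℝ) / n else 0) := by
    rw [← summable_nat_add_iff p0] at hs ⊢
    refine hs.congr fun n => ?_
    simp
  have := hs2.subtype {n : ℕ | n.Prime}
  refine this.congr fun n => ?_
  have hn : (n : ℕ).Prime := n.2
  simp [hn]

lemma exists_primes (p0 : ℕ) (δ : ℝ) (hδ : 0 < δ) :
    ∃ P : Finset ℕ, (∀ p ∈ P, p.Prime ∧ p0 ≤ p) ∧ P.Nonempty ∧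
      (Nat.totient (∏ p ∈ P, p) : ℝ) ≤ δ * ((∏ p ∈ P, p : ℕ) : ℝ) := by
  classical
  obtain ⟨P, hP, hsum⟩ := exists_primes_sum p0 (max 1 (-Real.log δ))
  refine ⟨P, hP, ?_, ?_⟩
  · rw [Finset.nonempty_iff_ne_empty]
    rintro rfl
    have : (1 : ℝ) ≤ 0 := by simpa using (le_max_left _ _).trans hsum
    linarith
  · have h1 : (∏ p ∈ P, p).primeFactors = P := Nat.primeFactors_prod fun p hp => (hP p hp).1
    have h2 := Nat.totient_eq_mul_prod_factors (∏ p ∈ P, p)
    rw [h1] at h2
    have h3 : ((Nat.totient (∏ p ∈ P, p) : ℕ) : ℝ) =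
        ((∏ p ∈ P, p : ℕ) : ℝ) * ∏ p ∈ P, (1 - (p : ℝ)⁻¹) := by
      have := congrArg (fun q : ℚ => (q : ℝ)) h2
      push_cast at this ⊢
      exact this
    rw [h3, mul_comm]
    refine mul_le_mul_of_nonneg_right ?_ (Nat.cast_nonneg _)
    have h4 : ∏ p ∈ P, (1 - (p : ℝ)⁻¹) ≤ ∏ p ∈ P, Real.exp (-(1 / (p : ℝ))) := by
      refine Finset.prod_le_prod ?_ ?_
      · intro p hp
        have : (1 : ℝ) ≤ p := by exact_mod_cast (hP p hp).1.one_lt.le
        have : (p : ℝ)⁻¹ ≤ 1 := inv_le_one_of_one_le₀ this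
        linarith
      · intro p _
        have := Real.add_one_le_exp (-(1 / (p : ℝ)))
        rw [one_div] at this ⊢
        linarith
    refine h4.trans ?_
    rw [← Real.exp_sum, Finset.sum_neg_distrib]
    calc Real.exp (-∑ p ∈ P, 1 / (p : ℝ)) ≤ Real.exp (Real.log δ) := by
          apply Real.exp_le_exp.mpr
          have := (le_max_right _ _).trans hsum
          linarith
      _ = δ := Real.exp_log hδ

end H28.Cusp
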