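import Mathlib
import Pool.Agent.H28.Cusp.Alg
import Pool.Agent.H28.Cusp.Primes
import Pool.Agent.H28.Cusp.L2

set_option autoImplicit false

open UpperHalfPlane ModularGroup MatrixGroups Modular Matrix MeasureTheory

namespace H28.Cusp

/-- Working hypotheses: invariance, and Hecke relations with bounded eigenvalues. -/
structure Ctrl (B : ℕ → ℝ) (U : ℂ → ℂ) : Prop where
  inv : ∀ z : ℂ, 0 < z.im → U (z + 1) = U z ∧ U (-z⁻¹) = U z
  hecke : ∀ p : ℕ, p.Prime → ∃ c : ℂ, ‖c‖ ≤ B p ∧ ∀ z : ℂ, 0 < z.im →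
    U ((p : ℂ) * z) + ∑ b ∈ Finset.range p, U ((z + (b : ℂ)) / (p : ℂ)) = c * U z

lemma Ctrl.add_nat {B : ℕ → ℝ} {U : ℂ → ℂ} (h : Ctrl B U) (n : ℕ) :
    ∀ z : ℂ, 0 < z.im → U (z + n) = U z := by
  induction n with
  | zero => intro z _; simp
  | succ n ih =>
    intro z hz
    have h1 : z + ((n + 1 : ℕ) : ℂ) = (z + n) + 1 := by push_cast; ring
    rw [h1, (h.inv (z + n) (by simpa using hz)).1, ih z hz]

lemma Ctrl.add_int {B : ℕ → ℝ} {U : ℂ → ℂ} (h : Ctrl B U) (n : ℤ) (z : ℂ) (hz : 0 < z.im) :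
    U (z + n) = U z := by
  rcases Int.eq_nat_or_neg n with ⟨m, rfl | rfl⟩
  · exact_mod_cast h.add_nat m z hz
  · have h1 := h.add_nat m (z + ((-(m : ℤ) : ℤ) : ℂ)) (by simpa using hz)
    rw [← h1]
    push_cast
    congr 1
    ring

/-- The height of the inverted point lies in the band. -/
lemma arc_height (Y Y' : ℝ) (hY : 1 ≤ Y) (hY' : 8 * Y ≤ Y') (x h : ℝ) (h1 : 1 / (8 * Y) ≤ h)
    (h2 : h ≤ 1 / (2 * Y)) (hx : x ^ 2 ≤ (1 / (4 * Y)) ^ 2) :
    Y ≤ h / (x ^ 2 + h ^ 2) ∧ h / (x ^ 2 + h ^ 2) ≤ Y' := by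
  have hY0 : 0 < Y := by linarith
  have hh : 0 < h := lt_of_lt_of_le (by positivity) h1
  have hD : 0 < x ^ 2 + h ^ 2 := by positivity
  have hwY : (1 / (4 * Y)) ^ 2 * Y = 1 / (16 * Y) := by field_simp; norm_num
  have key : 1 / (16 * Y) + Y * h ^ 2 ≤ h := by
    have h3 : (h - 1 / (8 * Y)) * (h - 1 / (2 * Y)) ≤ 0 :=
      mul_nonpos_of_nonneg_of_nonpos (by linarith) (by linarith)
    have h4 : Y * ((h - 1 / (8 * Y)) * (h - 1 / (2 * Y))) =
        Y * h ^ 2 - 5 / 8 * h + 1 / (16 * Y) := by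
      field_simp; ring
    have h5 : Y * ((h - 1 / (8 * Y)) * (h - 1 / (2 * Y))) ≤ 0 :=
      mul_nonpos_of_nonneg_of_nonpos hY0.le h3
    rw [h4] at h5
    linarith
  have h8 : 1 ≤ 8 * Y * h := by
    rw [div_le_iff₀ (by positivity)] at h1
    linarith
  constructor
  · rw [le_div_iff₀ hD]
    have h6 : Y * x ^ 2 ≤ Y * (1 / (4 * Y)) ^ 2 := mul_le_mul_of_nonneg_left hx hY0.le
    have h7 : Y * (x ^ 2 + h ^ 2) = Y * x ^ 2 + Y * h ^ 2 := by ring
    rw [h7]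
    linarith
  · rw [div_le_iff₀ hD]
    have h9 : h ≤ 8 * Y * h ^ 2 := by
      have := mul_le_mul_of_nonneg_right h8 hh.le
      calc h = 1 * h := (one_mul h).symm
        _ ≤ 8 * Y * h * h := this
        _ = _ := by ring
    have h10 : 8 * Y * h ^ 2 ≤ Y' * h ^ 2 := mul_le_mul_of_nonneg_right hY' (sq_nonneg h)
    have h11 : 0 ≤ Y' * x ^ 2 := mul_nonneg (by linarith) (sq_nonneg x)
    have h12 : Y' * (x ^ 2 + h ^ 2) = Y' * x ^ 2 + Y' * h ^ 2 := by ring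
    rw [h12]
    linarith

/-- The sum along a coset of `p`-torsion is controlled by the band. -/
lemma coset_bound {B : ℕ → ℝ} (hB : ∀ p, 0 ≤ B p) {Y Y' : ℝ} (hY : 1 ≤ Y) {U : ℂ → ℂ}
    (hU : Ctrl B U) {M : ℝ}
    (hband : ∀ z : ℂ, Y ≤ z.im → z.im ≤ Y' → ‖U z‖ ≤ M) {p : ℕ} (hpp : p.Prime)
    (hpY : 8 * Y ^ 2 ≤ p) (hpY' : (p : ℝ) ^ 2 ≤ Y') {z : ℂ}
    (hz1 : 1 / (8 * Y) ≤ z.im) (hz2 : z.im ≤ 1 / (2 * Y)) :
    ‖∑ j ∈ Finset.range p, U (((p : ℂ) * z + (j : ℂ)) / (p : ℂ))‖ ≤ (B p + 1) * M := by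
  have hY0 : 0 < Y := by linarith
  have hh : 0 < z.im := lt_of_lt_of_le (by positivity) hz1
  have hppos : (0 : ℝ) < p := by exact_mod_cast hpp.pos
  obtain ⟨c, hc, hT⟩ := hU.hecke p hpp
  have hpzim : ((p : ℂ) * z).im = p * z.im := by simp
  have hppzim : ((p : ℂ) * ((p : ℂ) * z)).im = p * (p * z.im) := by
    have : ((p : ℂ) * ((p : ℂ) * z)).im = p * ((p : ℂ) * z).im := by simp
    rw [this, hpzim]
  have hT' := hT ((p : ℂ) * z) (by rw [hpzim]; positivity)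
  have h3 : ∑ j ∈ Finset.range p, U (((p : ℂ) * z + (j : ℂ)) / (p : ℂ)) =
      c * U ((p : ℂ) * z) - U ((p : ℂ) * ((p : ℂ) * z)) := by
    rw [← hT']; ring
  rw [h3]
  have hz1' : 1 ≤ 8 * Y * z.im := by
    rw [div_le_iff₀ (by positivity)] at hz1
    linarith
  have hz2' : 2 * Y * z.im ≤ 1 := by
    rw [le_div_iff₀ (by positivity)] at hz2
    linarith
  have hz3 : z.im ≤ 1 := by
    have : 1 * z.im ≤ 2 * Y * z.im := mul_le_mul_of_nonneg_right (by linarith) hh.le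
    linarith
  have hp1 : (1 : ℝ) ≤ p := by exact_mod_cast hpp.one_lt.le
  have hlow1 : Y ≤ p * z.im := by
    have h4 : Y ≤ (8 * Y ^ 2) * z.im := by
      have := mul_le_mul_of_nonneg_left hz1' hY0.le
      calc Y = Y * 1 := (mul_one Y).symm
        _ ≤ Y * (8 * Y * z.im) := this
        _ = _ := by ring
    exact h4.trans (mul_le_mul_of_nonneg_right hpY hh.le)
  have hlow2 : Y ≤ p * (p * z.im) := by
    have : 1 * (p * z.im) ≤ p * (p * z.im) := mul_le_mul_of_nonneg_right hp1 (by positivity)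
    linarith
  have hup2 : p * (p * z.im) ≤ Y' := by
    have : (p : ℝ) ^ 2 * z.im ≤ (p : ℝ) ^ 2 * 1 := mul_le_mul_of_nonneg_left hz3 (by positivity)
    calc p * (p * z.im) = (p : ℝ) ^ 2 * z.im := by ring
      _ ≤ (p : ℝ) ^ 2 * 1 := this
      _ ≤ Y' := by linarith
  have hup1 : p * z.im ≤ Y' := by
    have : 1 * (p * z.im) ≤ p * (p * z.im) := mul_le_mul_of_nonneg_right hp1 (by positivity)
    linarith
  have e1 : ‖U ((p : ℂ) * z)‖ ≤ M := hband _ (by rw [hpzim]; exact hlow1) (by rw [hpzim]; exact hup1)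
  have e2 : ‖U ((p : ℂ) * ((p : ℂ) * z))‖ ≤ M :=
    hband _ (by rw [hppzim]; exact hlow2) (by rw [hppzim]; exact hup2)
  calc ‖c * U ((p : ℂ) * z) - U ((p : ℂ) * ((p : ℂ) * z))‖
      ≤ ‖c‖ * ‖U ((p : ℂ) * z)‖ + ‖U ((p : ℂ) * ((p : ℂ) * z))‖ := by
        rw [← norm_mul]; exact norm_sub_le _ _
    _ ≤ B p * M + M := add_le_add (mul_le_mul hc e1 (norm_nonneg _) (hB p)) e2
    _ = (B p + 1) * M := by ring

/-- Control of low horocycles. -/
theorem low (B : ℕ → ℝ) (hB : ∀ p, 0 ≤ B p) (Y : ℝ) (hY : 1 ≤ Y) :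
    ∃ Y' : ℝ, Y ≤ Y' ∧ ∃ C : ℝ, 0 ≤ C ∧ ∀ U : ℂ → ℂ, Ctrl B U → ∀ M : ℝ, 0 ≤ M →
      (∀ z : ℂ, Y ≤ z.im → z.im ≤ Y' → ‖U z‖ ≤ M) →
      ∀ z : ℂ, 1 / (8 * Y) ≤ z.im → z.im ≤ 1 / (2 * Y) → ‖U z‖ ≤ C * M := by
  classical
  have hY0 : 0 < Y := by linarith
  obtain ⟨P, hP, hPne, htot⟩ := exists_primes ⌈8 * Y ^ 2⌉₊ (1 / (2 * Y)) (by positivity)
  obtain ⟨N, hN⟩ : ∃ N : ℕ, N = ∏ p ∈ P, p := ⟨_, rfl⟩
  rw [← hN] at htot
  have hNpos : 0 < N := by rw [hN]; exact Finset.prod_pos fun p hp => (hP p hp).1.pos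
  have hNr : (0 : ℝ) < N := by exact_mod_cast hNpos
  have hrec := recurrence P (fun p hp => (hP p hp).1) hPne
  rw [← hN] at hrec
  choose Cb hCb0 hCb using hrec
  obtain ⟨Y', hY'⟩ : ∃ Y' : ℝ, Y' = 8 * Y + ∑ p ∈ P, (p : ℝ) ^ 2 := ⟨_, rfl⟩
  obtain ⟨BP, hBP⟩ : ∃ BP : ℝ, BP = (∑ p ∈ P, B p) + 1 := ⟨_, rfl⟩
  have hBP1 : 1 ≤ BP := by
    have := Finset.sum_nonneg fun p (_ : p ∈ P) => hB p
    rw [hBP]; linarith
  have hsum0 : 0 ≤ ∑ p ∈ P, (p : ℝ) ^ 2 := Finset.sum_nonneg fun p _ => by positivity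
  have h8Y : 8 * Y ≤ Y' := by rw [hY']; linarith
  refine ⟨Y', by linarith, (∑ b ∈ Finset.range (2 * N + 1), Cb b) * BP, ?_, ?_⟩
  · exact mul_nonneg (Finset.sum_nonneg fun b _ => hCb0 b) (by linarith)
  intro U hU M hM hband z hz1 hz2
  -- reduce to real part in [0,1)
  wlog hre : 0 ≤ z.re ∧ z.re < 1 generalizing z with H
  · have hzim : 0 < z.im := lt_of_lt_of_le (by positivity) hz1
    have h1 := H (z + ((-⌊z.re⌋ : ℤ) : ℂ)) (by simpa using hz1) (by simpa using hz2) (by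
      constructor
      · simp only [Complex.add_re, Complex.intCast_re]
        push_cast
        linarith [Int.floor_le z.re]
      · simp only [Complex.add_re, Complex.intCast_re]
        push_cast
        linarith [Int.lt_floor_add_one z.re])
    rwa [hU.add_int _ z hzim] at h1
  have hh : 0 < z.im := lt_of_lt_of_le (by positivity) hz1
  obtain ⟨w, hw⟩ : ∃ w : ℝ, w = 1 / (4 * Y) := ⟨_, rfl⟩
  have hw0 : 0 < w := by rw [hw]; positivity
  have hw1 : w ≤ 1 / 4 := by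
    rw [hw, div_le_div_iff₀ (by positivity) (by norm_num)]
    linarith
  obtain ⟨b, hb⟩ : ∃ b : ℕ, b = ⌊(N : ℝ) * (z.re + w)⌋₊ := ⟨_, rfl⟩
  have hb0 : 0 ≤ (N : ℝ) * (z.re + w) := by
    apply mul_nonneg hNr.le; linarith [hre.1]
  have hb1 : (b : ℝ) ≤ (N : ℝ) * (z.re + w) := by rw [hb]; exact Nat.floor_le hb0
  have hb2 : (N : ℝ) * (z.re + w) < b + 1 := by rw [hb]; exact Nat.lt_floor_add_one _
  have hbN : b < 2 * N + 1 := by
    have h1 : (N : ℝ) * (z.re + w) ≤ N * 2 := mul_le_mul_of_nonneg_left (by linarith [hre.2]) hNr.le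
    have : (b : ℝ) < 2 * N + 1 := by linarith
    exact_mod_cast this
  obtain ⟨z0, hz0⟩ : ∃ z0 : ℂ, z0 = z - ((b : ℝ) / (N : ℝ) : ℝ) := ⟨_, rfl⟩
  obtain ⟨G, hG⟩ : ∃ G : ℕ → ℂ, ∀ k, G k = U (z0 + ((k : ℝ) / (N : ℝ) : ℝ)) := ⟨_, fun _ => rfl⟩
  have hGb : G b = U z := by
    rw [hG, hz0]
    congr 1
    ring
  have him : ∀ k : ℕ, (z0 + ((k : ℝ) / (N : ℝ) : ℝ)).im = z.im := by
    intro k
    simp [hz0]
  have hzre : ∀ k : ℕ, (z0 + ((k : ℝ) / (N : ℝ) : ℝ)).re = z.re - b / N + k / N := by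
    intro k
    simp [hz0]
  -- first condition
  have hA1 : ∀ p ∈ P, ∀ k, ‖∑ j ∈ Finset.range p, G (k + j * (N / p))‖ ≤ BP * M := by
    intro p hp k
    have hpp := (hP p hp).1
    have hpc : (p : ℂ) ≠ 0 := by exact_mod_cast hpp.ne_zero
    have hNc : (N : ℂ) ≠ 0 := by exact_mod_cast hNpos.ne'
    have hpr : (p : ℝ) ≠ 0 := by exact_mod_cast hpp.ne_zero
    have hpY : 8 * Y ^ 2 ≤ p := (Nat.le_ceil _).trans (by exact_mod_cast (hP p hp).2)
    have hdvd : p ∣ N := by rw [hN]; exact Finset.dvd_prod_of_mem _ hp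
    have hpY' : (p : ℝ) ^ 2 ≤ Y' := by
      have := Finset.single_le_sum (fun q _ => by positivity : ∀ q ∈ P, (0 : ℝ) ≤ (q : ℝ) ^ 2) hp
      rw [hY']; linarith
    have hzkim := him k
    have hsum : ∑ j ∈ Finset.range p, G (k + j * (N / p)) =
        ∑ j ∈ Finset.range p, U (((p : ℂ) * (z0 + ((k : ℝ) / (N : ℝ) : ℝ)) + (j : ℂ)) / (p : ℂ)) := by
      refine Finset.sum_congr rfl fun j _ => ?_
      rw [hG]
      congr 1
      have h1 : ((N / p : ℕ) : ℝ) = (N : ℝ) / p := Nat.cast_div hdvd hpr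
      have h2 : (((k + j * (N / p) : ℕ) : ℝ) / (N : ℝ) : ℝ) = (k : ℝ) / N + (j : ℝ) / p := by
        push_cast
        rw [h1]
        field_simp
      rw [h2]
      push_cast
      field_simp
      ring
    rw [hsum]
    refine (coset_bound hB hY hU hband hpp hpY hpY' (by rw [hzkim]; exact hz1)
      (by rw [hzkim]; exact hz2)).trans ?_
    have hBp : B p ≤ ∑ q ∈ P, B q := Finset.single_le_sum (fun q _ => hB q) hp
    rw [hBP]
    exact mul_le_mul_of_nonneg_right (by linarith) hM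
  -- second condition
  have hA2 : ∀ k, k < Nat.totient N → ‖G k‖ ≤ BP * M := by
    intro k hk
    obtain ⟨zk, hzk⟩ : ∃ zk : ℂ, zk = z0 + ((k : ℝ) / (N : ℝ) : ℝ) := ⟨_, rfl⟩
    have hzkim : zk.im = z.im := by rw [hzk]; exact him k
    have hzkre : zk.re = z.re - b / N + k / N := by rw [hzk]; exact hzre k
    have hkN : ((k : ℝ) + 1) ≤ 1 / (2 * Y) * N := by
      have : ((k + 1 : ℕ) : ℝ) ≤ (Nat.totient N : ℝ) := by exact_mod_cast hk
      push_cast at this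
      exact this.trans htot
    have hlo : -w ≤ zk.re := by
      rw [hzkre]
      have h1 : (b : ℝ) / N ≤ z.re + w := by
        rw [div_le_iff₀ hNr]; linarith
      have h2 : (0 : ℝ) ≤ (k : ℝ) / N := by positivity
      linarith
    have hhi : zk.re ≤ w := by
      rw [hzkre]
      have h1 : z.re + w ≤ (b + 1) / N := by
        rw [le_div_iff₀ hNr]; linarith
      have h2 : ((k : ℝ) + 1) / N ≤ 1 / (2 * Y) := by
        rw [div_le_iff₀ hNr]; exact hkN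
      have h3 : 1 / (2 * Y) = 2 * w := by rw [hw]; field_simp; norm_num
      rw [add_div] at h1 h2
      linarith
    have hx2 : zk.re ^ 2 ≤ w ^ 2 := sq_le_sq' hlo hhi
    have hG1 : G k = U (-zk⁻¹) := by
      rw [hG, ← hzk]
      exact ((hU.inv zk (by rw [hzkim]; exact hh)).2).symm
    rw [hG1]
    have hns : Complex.normSq zk = zk.re ^ 2 + z.im ^ 2 := by
      rw [Complex.normSq_apply, hzkim]; ring
    have him2 : (-zk⁻¹).im = z.im / (zk.re ^ 2 + z.im ^ 2) := by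
      rw [Complex.neg_im, Complex.inv_im, hzkim, hns]; ring
    have harc := arc_height Y Y' hY h8Y zk.re z.im hz1 hz2 (by rw [← hw]; exact hx2)
    have h1 := hband (-zk⁻¹) (by rw [him2]; exact harc.1) (by rw [him2]; exact harc.2)
    have h2 : 1 * M ≤ BP * M := mul_le_mul_of_nonneg_right hBP1 hM
    linarith
  have hfin := hCb b G (BP * M) (mul_nonneg (by linarith) hM) hA1 hA2
  rw [hGb] at hfin
  refine hfin.trans ?_
  have h1 : Cb b ≤ ∑ b ∈ Finset.range (2 * N + 1), Cb b :=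
    Finset.single_le_sum (fun q _ => hCb0 q) (Finset.mem_range.mpr hbN)
  calc Cb b * (BP * M) ≤ (∑ b ∈ Finset.range (2 * N + 1), Cb b) * (BP * M) :=
        mul_le_mul_of_nonneg_right h1 (mul_nonneg (by linarith) hM)
    _ = _ := by ring

end H28.Cusp
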