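import Mathlib
import Pool.Agent.H28.Cusp.Main

set_option autoImplicit false

open UpperHalfPlane ModularGroup MatrixGroups Modular Matrix MeasureTheory

namespace H28.Cusp

/-- Stepping up with the Hecke relation at `2`. -/
lemma step_up (B : ℕ → ℝ) (hB : ∀ p, 0 ≤ B p) (Y : ℝ) (hY : 1 ≤ Y) (k : ℕ) :
    ∃ C : ℝ, 0 ≤ C ∧ ∀ U : ℂ → ℂ, Ctrl B U → ∀ M : ℝ, 0 ≤ M →
      (∀ z : ℂ, 1 / (8 * Y) ≤ z.im → z.im ≤ 1 / (2 * Y) → ‖U z‖ ≤ M) →
      ∀ z : ℂ, 1 / (8 * Y) ≤ z.im → z.im ≤ 2 ^ k / (2 * Y) → ‖U z‖ ≤ C * M := by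
  have hY0 : 0 < Y := by linarith
  induction k with
  | zero =>
    refine ⟨1, zero_le_one, fun U _ M _ h z h1 h2 => ?_⟩
    rw [one_mul]
    exact h z h1 (by simpa using h2)
  | succ k ih =>
    obtain ⟨C, hC0, hC⟩ := ih
    refine ⟨(B 2 + 3) * C, mul_nonneg (by linarith [hB 2]) hC0, ?_⟩
    intro U hU M hM hlow z h1 h2
    have hCM : 0 ≤ C * M := mul_nonneg hC0 hM
    have hfin : C * M ≤ (B 2 + 3) * C * M := by
      have : 1 * (C * M) ≤ (B 2 + 3) * (C * M) :=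
        mul_le_mul_of_nonneg_right (by linarith [hB 2]) hCM
      linarith
    rcases le_or_gt z.im (2 ^ k / (2 * Y)) with h3 | h3
    · exact (hC U hU M hM hlow z h1 h3).trans hfin
    · have hpow : (1 : ℝ) ≤ 2 ^ k := one_le_pow₀ (by norm_num)
      have h4 : 1 / (2 * Y) ≤ 2 ^ k / (2 * Y) :=
        div_le_div_of_nonneg_right hpow (by positivity)
      have h5 : 1 / (8 * Y) = 1 / (2 * Y) / 4 := by field_simp; norm_num
      have h6 : (2 : ℝ) ^ (k + 1) / (2 * Y) = 2 * (2 ^ k / (2 * Y)) := by rw [pow_succ]; ring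
      rw [h6] at h2
      have hz : 0 < z.im := by
        have : (0 : ℝ) < 2 ^ k / (2 * Y) := by positivity
        linarith
      have h7 : 0 < 1 / (2 * Y) := by positivity
      have i1 : (z / 2).im = z.im / 2 := by simp
      have i2 : ((z / 2 + (0 : ℂ)) / 2).im = z.im / 4 := by simp; ring
      have i3 : ((z / 2 + (1 : ℂ)) / 2).im = z.im / 4 := by simp; ring
      obtain ⟨c, hc, hT⟩ := hU.hecke 2 Nat.prime_two
      have hT' := hT (z / 2) (by rw [i1]; linarith)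
      have e : ((2 : ℕ) : ℂ) * (z / 2) = z := by push_cast; ring
      rw [e, Finset.sum_range_succ, Finset.sum_range_one] at hT'
      push_cast at hT'
      have e2 : U z = c * U (z / 2) - U ((z / 2 + 0) / 2) - U ((z / 2 + 1) / 2) := by
        rw [← hT']; ring
      have b1 := hC U hU M hM hlow (z / 2) (by rw [i1]; linarith) (by rw [i1]; linarith)
      have b2 := hC U hU M hM hlow ((z / 2 + 0) / 2) (by rw [i2]; linarith) (by rw [i2]; linarith)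
      have b3 := hC U hU M hM hlow ((z / 2 + 1) / 2) (by rw [i3]; linarith) (by rw [i3]; linarith)
      calc ‖U z‖ ≤ ‖c * U (z / 2) - U ((z / 2 + 0) / 2)‖ + ‖U ((z / 2 + 1) / 2)‖ := by
            rw [e2]; exact norm_sub_le _ _
        _ ≤ ‖c * U (z / 2)‖ + ‖U ((z / 2 + 0) / 2)‖ + ‖U ((z / 2 + 1) / 2)‖ := by
            gcongr; exact norm_sub_le _ _
        _ ≤ B 2 * (C * M) + C * M + C * M := by
            rw [norm_mul]
            exact add_le_add (add_le_add (mul_le_mul hc b1 (norm_nonneg _) (hB 2)) b2) b3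
        _ ≤ (B 2 + 3) * C * M := by linarith

/-- Points are equivalent to points of height in `[1/2, max(h, 1/h)]`. -/
lemma move {U : ℂ → ℂ} (hinv : ∀ z : ℂ, 0 < z.im → U (z + 1) = U z ∧ U (-z⁻¹) = U z)
    (z : ℂ) (hz : 0 < z.im) :
    ∃ w : ℂ, 1 / 2 ≤ w.im ∧ w.im ≤ max z.im (1 / z.im) ∧ U w = U z := by
  set τ : ℍ := ⟨z, hz⟩ with hτ
  obtain ⟨g, hg⟩ := ModularGroup.exists_one_half_le_im_smul τ
  refine ⟨((g • τ : ℍ) : ℂ), ?_, ?_, ?_⟩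
  · exact hg
  · exact im_smul_le g τ
  · have := inv_SL hinv g τ
    simpa [hτ] using this

theorem final (Y : ℝ) : ∃ L : Set ℂ, IsCompact L ∧ L ⊆ {w : ℂ | 0 < w.im ∧ Y ≤ w.im} ∧
    ∀ K : Set ℂ, IsCompact K → K ⊆ {z : ℂ | 0 < z.im} → ∃ C : ℝ, ∀ U : ℂ → ℂ,
      ContinuousOn U {z : ℂ | 0 < z.im} →
      (∀ z : ℂ, 0 < z.im → U (z + 1) = U z ∧ U (-z⁻¹) = U z) →
      IntegrableOn (fun z : ℂ => ‖U z‖ ^ 2 / z.im ^ 2)
        {z : ℂ | 0 < z.im ∧ |z.re| ≤ 1 / 2 ∧ 1 ≤ ‖z‖} →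
      (∀ p : ℕ, p.Prime → ∃ c : ℂ, ∀ z : ℂ, 0 < z.im →
        U ((p : ℂ) * z) + ∑ b ∈ Finset.range p, U ((z + (b : ℂ)) / (p : ℂ)) = c * U z) →
      ∀ z ∈ K, ∃ w ∈ L, ‖U z‖ ≤ C * ‖U w‖ := by
  classical
  -- the eigenvalue bounds
  have hev : ∀ p : ℕ, ∃ B : ℝ, 0 ≤ B ∧ (0 < p → ∀ (U : ℂ → ℂ) (c : ℂ),
      ContinuousOn U {z : ℂ | 0 < z.im} →
      (∀ z : ℂ, 0 < z.im → U (z + 1) = U z ∧ U (-z⁻¹) = U z) →
      IntegrableOn (fun z : ℂ => ‖U z‖ ^ 2 / z.im ^ 2)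
        {z : ℂ | 0 < z.im ∧ |z.re| ≤ 1 / 2 ∧ 1 ≤ ‖z‖} →
      (∀ z : ℂ, 0 < z.im →
        U ((p : ℂ) * z) + ∑ b ∈ Finset.range p, U ((z + (b : ℂ)) / (p : ℂ)) = c * U z) →
      (∃ z : ℂ, 0 < z.im ∧ U z ≠ 0) → ‖c‖ ≤ B) := by
    intro p
    rcases Nat.eq_zero_or_pos p with rfl | hp
    · exact ⟨0, le_rfl, fun h => absurd h (lt_irrefl _)⟩
    · obtain ⟨B, hB0, hB⟩ := eigenvalue_bound p hp
      exact ⟨B, hB0, fun _ => hB⟩
  choose B hB0 hB using hev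
  obtain ⟨Y1, hY1⟩ : ∃ Y1 : ℝ, Y1 = max Y 1 := ⟨_, rfl⟩
  have hY1' : 1 ≤ Y1 := by rw [hY1]; exact le_max_right _ _
  have hY1Y : Y ≤ Y1 := by rw [hY1]; exact le_max_left _ _
  obtain ⟨Y', hYY', C0, hC00, hC0⟩ := low B hB0 Y1 hY1'
  obtain ⟨L, hL⟩ : ∃ L : Set ℂ, L = {w : ℂ | |w.re| ≤ 1 / 2 ∧ Y1 ≤ w.im ∧ w.im ≤ Y'} := ⟨_, rfl⟩
  have hLc : IsCompact L := by
    have h1 : L = Set.Icc (-(1 / 2 : ℝ)) (1 / 2) ×ℂ Set.Icc Y1 Y' := by
      ext w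
      rw [hL, Complex.mem_reProdIm]
      simp only [Set.mem_setOf_eq, Set.mem_Icc, abs_le]
    rw [h1]
    exact isCompact_Icc.reProdIm isCompact_Icc
  have hLsub : L ⊆ {w : ℂ | 0 < w.im ∧ Y ≤ w.im} := by
    intro w hw
    rw [hL] at hw
    exact ⟨by linarith [hw.2.1], by linarith [hw.2.1]⟩
  have hLne : L.Nonempty := ⟨⟨0, Y1⟩, by rw [hL]; simpa using hYY'⟩
  refine ⟨L, hLc, hLsub, fun K hK hKsub => ?_⟩
  -- the height bound on K
  obtain ⟨H, hH⟩ : ∃ H : ℝ, ∀ z ∈ K, max z.im (1 / z.im) ≤ H := by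
    have hcont : ContinuousOn (fun z : ℂ => max z.im (1 / z.im)) K := by
      apply ContinuousOn.sup
      · exact Complex.continuous_im.continuousOn
      · exact continuousOn_const.div Complex.continuous_im.continuousOn
          fun z hz => (hKsub hz).ne'
    obtain ⟨H, hH⟩ := (hK.image_of_continuousOn hcont).bddAbove
    exact ⟨H, fun z hz => hH ⟨z, hz, rfl⟩⟩
  obtain ⟨k, hk⟩ : ∃ k : ℕ, H * (2 * Y1) ≤ 2 ^ k := by
    obtain ⟨k, hk⟩ := pow_unbounded_of_one_lt (H * (2 * Y1)) (by norm_num : (1 : ℝ) < 2)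
    exact ⟨k, hk.le⟩
  obtain ⟨C1, hC10, hC1⟩ := step_up B hB0 Y1 hY1' k
  refine ⟨C1 * C0, fun U hcont hinv hint hhecke z hz => ?_⟩
  have hzim : 0 < z.im := hKsub hz
  by_cases hne : ∃ z : ℂ, 0 < z.im ∧ U z ≠ 0
  swap
  · push_neg at hne
    obtain ⟨w, hw⟩ := hLne
    refine ⟨w, hw, ?_⟩
    rw [hne z hzim, hne w (hLsub hw).1]
    simp
  have hU : Ctrl B U := by
    refine ⟨hinv, fun p hp => ?_⟩
    obtain ⟨c, hc⟩ := hhecke p hp
    exact ⟨c, hB p hp.pos U c hcont hinv hint hc hne, hc⟩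
  obtain ⟨w, hwL, hw⟩ := hLc.exists_isMaxOn hLne
    (f := fun z => ‖U z‖) ((hcont.mono fun z hz => (hLsub hz).1).norm)
  refine ⟨w, hwL, ?_⟩
  have hband : ∀ z : ℂ, Y1 ≤ z.im → z.im ≤ Y' → ‖U z‖ ≤ ‖U w‖ := by
    intro z h1 h2
    have hz0 : 0 < z.im := by linarith
    have h3 := hU.add_int (-round z.re) z hz0
    rw [← h3]
    refine hw ?_
    rw [hL]
    refine ⟨?_, by simpa using h1, by simpa using h2⟩
    have h4 : (z + ((-round z.re : ℤ) : ℂ)).re = z.re - round z.re := by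
      simp [sub_eq_add_neg]
    rw [h4]
    exact abs_sub_round z.re
  have h1 := hC0 U hU ‖U w‖ (norm_nonneg _) hband
  have h2 := hC1 U hU (C0 * ‖U w‖) (mul_nonneg hC00 (norm_nonneg _)) h1
  obtain ⟨v, hv1, hv2, hv3⟩ := move hinv z hzim
  have h3 := h2 v (by
      refine le_trans ?_ hv1
      rw [div_le_div_iff₀ (by positivity) (by norm_num)]
      linarith) (by
      rw [le_div_iff₀ (by positivity)]
      refine le_trans ?_ hk
      exact mul_le_mul_of_nonneg_right (hv2.trans (hH z hz)) (by positivity))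
  rw [← hv3]
  calc ‖U v‖ ≤ C1 * (C0 * ‖U w‖) := h3
    _ = C1 * C0 * ‖U w‖ := by ring

end H28.Cusp
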